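import Pool.Agent.Work.MP_5100e0_lc.Main

/-!
The chip-firing reachability problem is hard for `coNP`, both for simple digraphs and for directed
multigraphs.

The definitions of the chip-firing game, of the instances and of their encoding as strings are in
`Pool/Agent/Work/MP_5100e0_lc/Defs.lean`; those of polynomial time, `NP`, `coNP` and hardness are in
`Pool/Agent/Work/TMLib/Classes.lean`.
-/

namespace Pool.Agent.Results.MP_5100e0_lc.CoNPHardness

open Pool.Agent.Work.MP_5100e0_lc Pool.Agent.Work.TMLib

/-- The encoding of instances by strings is injective, and deciding whether `x ⇝ y` by a legal
game is hard for `coNP` under polynomial-time many-one reductions, already for simple digraphs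
(and hence also for arbitrary directed multigraphs). -/
theorem result :
    Function.Injective encInst ∧
      CoNPHard encInst SimpleDigraph Reachable ∧
      CoNPHard encInst Set.univ Reachable :=
  ⟨encInst_injective, coNPHard_simple, coNPHard_all⟩

end Pool.Agent.Results.MP_5100e0_lc.CoNPHardness
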